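import Pool.Agent.H815.QC.Stm2

/-!
# `S_A4` (project QC of helper815): the Artin group is a graph product over the pentagon
-/

set_option autoImplicit false

namespace Pool.Agent.H484.QC

open Pool.Agent.Y110.FJ Pool.Agent.T2H65.GP
open Pool.Agent.H815.QC

/-- the index of a pair -/
abbrev ix (v : Fin 5) (i : Fin 2) : Fin (5 * 2) := finProdFinEquiv (v, i)

theorem ix_fst (v : Fin 5) (i : Fin 2) : (finProdFinEquiv.symm (ix v i)).1 = v := by
  rw [ix, Equiv.symm_apply_apply]

theorem ix_snd (v : Fin 5) (i : Fin 2) : (finProdFinEquiv.symm (ix v i)).2 = i := by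
  rw [ix, Equiv.symm_apply_apply]

/-- the relation in the presented group -/
theorem pg_comm (a b : Fin (5 * 2)) (h : ΛF.Adj a b) :
    (PresentedGroup.of a : PresentedGroup (relA ΛF)) * PresentedGroup.of b = PresentedGroup.of b * PresentedGroup.of a := by
  have h1 : FreeGroup.of a * FreeGroup.of b * (FreeGroup.of a)⁻¹ * (FreeGroup.of b)⁻¹ ∈
      Subgroup.normalClosure (relA ΛF) := Subgroup.subset_normalClosure ⟨a, b, h, rfl⟩
  have h2 : PresentedGroup.mk (relA ΛF) (FreeGroup.of a * FreeGroup.of b * (FreeGroup.of a)⁻¹ * (FreeGroup.of b)⁻¹) = 1 :=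
    (QuotientGroup.eq_one_iff _).2 h1
  rw [map_mul, map_mul, map_mul, map_inv, map_inv] at h2
  have h3 := mul_inv_eq_one.1 h2
  exact mul_inv_eq_iff_eq_mul.1 h3

/-- elements of two free groups commute if the generators do -/
theorem fg_comm {P : Type} [Group P] (φ ψ : F2 →* P) (h : ∀ i j, φ (FreeGroup.of i) * ψ (FreeGroup.of j) =
    ψ (FreeGroup.of j) * φ (FreeGroup.of i)) (x y : F2) : φ x * ψ y = ψ y * φ x := by
  have h1 : ∀ i, ∀ y : F2, φ (FreeGroup.of i) * ψ y = ψ y * φ (FreeGroup.of i) := by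
    intro i y
    show Commute (φ (FreeGroup.of i)) (ψ y)
    refine FreeGroup.induction_on y ?_ ?_ ?_ ?_
    · rw [map_one]; exact Commute.one_right _
    · intro j; exact h i j
    · intro j hj; rw [map_inv]; exact hj.inv_right
    · intro a b ha hb; rw [map_mul]; exact ha.mul_right hb
  show Commute (φ x) (ψ y)
  refine FreeGroup.induction_on x ?_ ?_ ?_ ?_
  · rw [map_one]; exact Commute.one_left _
  · intro j; exact h1 j y
  · intro j hj; rw [map_inv]; exact hj.inv_left
  · intro a b ha hb; rw [map_mul]; exact ha.mul_left hb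

/-- the forward map on generators -/
noncomputable def fw (a : Fin (5 * 2)) : GrP C5 (fun _ => F2) :=
  GrP.of C5 (fun _ => F2) (finProdFinEquiv.symm a).1 (FreeGroup.of (finProdFinEquiv.symm a).2)

theorem fw_rel : ∀ r ∈ relA ΛF, FreeGroup.lift fw r = 1 := by
  rintro r ⟨a, b, hab, rfl⟩
  rw [map_mul, map_mul, map_mul, map_inv, map_inv, FreeGroup.lift_apply_of, FreeGroup.lift_apply_of]
  have h : fw a * fw b = fw b * fw a :=
    of_comm (B := fun _ : Fin 5 => F2) (show C5.Adj (finProdFinEquiv.symm a).1 (finProdFinEquiv.symm b).1 from hab) _ _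
  rw [h]
  group

/-- the forward homomorphism -/
noncomputable def F : PresentedGroup (relA ΛF) →* GrP C5 (fun _ => F2) := PresentedGroup.toGroup fw_rel

theorem F_of (a : Fin (5 * 2)) : F (PresentedGroup.of a) = fw a := PresentedGroup.toGroup.of fw_rel

/-- the vertex homomorphisms of the inverse -/
noncomputable def bw (v : Fin 5) : F2 →* PresentedGroup (relA ΛF) := FreeGroup.lift fun i => PresentedGroup.of (ix v i)

theorem bw_of (v : Fin 5) (i : Fin 2) : bw v (FreeGroup.of i) = PresentedGroup.of (ix v i) := FreeGroup.lift_apply_of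

theorem bw_comm (v w : Fin 5) (h : C5.Adj v w) (x y : F2) : bw v x * bw w y = bw w y * bw v x := by
  apply fg_comm
  intro i j
  rw [bw_of, bw_of]
  apply pg_comm
  show C5.Adj (finProdFinEquiv.symm (ix v i)).1 (finProdFinEquiv.symm (ix w j)).1
  rw [ix_fst, ix_fst]
  exact h

/-- the inverse -/
noncomputable def Gb : GrP C5 (fun _ => F2) →* PresentedGroup (relA ΛF) := glift bw bw_comm

theorem Gb_of (v : Fin 5) (x : F2) : Gb (GrP.of C5 (fun _ => F2) v x) = bw v x := glift_of _ _ _ _

theorem GF : Gb.comp F = MonoidHom.id _ := by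
  apply PresentedGroup.ext
  intro a
  rw [MonoidHom.comp_apply, F_of, fw, Gb_of, bw_of]
  show PresentedGroup.of (finProdFinEquiv (finProdFinEquiv.symm a)) = PresentedGroup.of a
  rw [Equiv.apply_symm_apply]

theorem FG : F.comp Gb = MonoidHom.id _ := by
  apply ghom_ext
  intro v b
  have h : (F.comp (bw v)) = GrP.of C5 (fun _ => F2) v := by
    apply FreeGroup.ext_hom
    intro i
    rw [MonoidHom.comp_apply, bw_of, F_of, fw, ix_fst, ix_snd]
  rw [MonoidHom.comp_apply, Gb_of, MonoidHom.id_apply]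
  exact DFunLike.congr_fun h b

theorem A4_proof : S_A4 :=
  ⟨MonoidHom.toMulEquiv F Gb GF FG, fun a => F_of a⟩

end Pool.Agent.H484.QC
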